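import Pool.Agent.H714Z.Odd.Defs

/-!
# Basic facts on paths
-/

namespace Pool.Agent.H714Z.Odd

/-- Adjacency in the multigraph with edge list `E`. -/
def Adj (E : List (ℕ × ℕ)) (u w : ℕ) : Prop := (u, w) ∈ E ∨ (w, u) ∈ E

theorem chain_of_forall₂ {E : List (ℕ × ℕ)} : ∀ (vs es : List ℕ),
    List.Forall₂ (fun (e : ℕ) (p : ℕ × ℕ) => E[e]? = some p ∨ E[e]? = some p.swap) es
      (vs.zip vs.tail) → vs.IsChain (Adj E)
  | [], _, _ => List.IsChain.nil
  | [_], _, _ => List.IsChain.singleton _
  | a :: b :: l, es, h => by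
    simp only [List.tail_cons, List.zip_cons_cons] at h
    cases h with
    | cons h1 h2 =>
      rw [List.isChain_cons_cons]
      refine ⟨?_, chain_of_forall₂ (b :: l) _ (by simpa using h2)⟩
      rcases h1 with h1 | h1
      · exact Or.inl (List.mem_of_getElem? h1)
      · exact Or.inr (List.mem_of_getElem? h1)

theorem IsPath.chain {E : List (ℕ × ℕ)} {vs es : List ℕ} (h : IsPath E vs es) :
    vs.IsChain (Adj E) := chain_of_forall₂ vs es h.2.2

theorem IsPath.length {E : List (ℕ × ℕ)} {vs es : List ℕ} (h : IsPath E vs es) :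
    vs.length = es.length + 1 := by
  have h1 := h.2.2.length_eq
  have h2 := List.length_pos_iff.2 h.1
  simp only [List.length_zip, List.length_tail] at h1
  omega

theorem exists_forall₂ {E : List (ℕ × ℕ)} : ∀ (vs : List ℕ), vs.IsChain (Adj E) →
    ∃ es : List ℕ, List.Forall₂ (fun (e : ℕ) (p : ℕ × ℕ) => E[e]? = some p ∨ E[e]? = some p.swap)
      es (vs.zip vs.tail)
  | [], _ => ⟨[], by simp⟩
  | [_], _ => ⟨[], by simp⟩
  | a :: b :: l, h => by
    rw [List.isChain_cons_cons] at h
    obtain ⟨es, hes⟩ := exists_forall₂ (b :: l) h.2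
    have : ∃ e : ℕ, E[e]? = some (a, b) ∨ E[e]? = some (a, b).swap := by
      rcases h.1 with h1 | h1
      · obtain ⟨e, he⟩ := List.getElem?_of_mem h1
        exact ⟨e, Or.inl he⟩
      · obtain ⟨e, he⟩ := List.getElem?_of_mem h1
        exact ⟨e, Or.inr he⟩
    obtain ⟨e, he⟩ := this
    refine ⟨e :: es, ?_⟩
    simp only [List.tail_cons, List.zip_cons_cons]
    exact List.Forall₂.cons he (by simpa using hes)

theorem exists_isPath {E : List (ℕ × ℕ)} {vs : List ℕ} (h0 : vs ≠ []) (h1 : vs.Nodup)
    (h2 : vs.IsChain (Adj E)) : ∃ es, IsPath E vs es := by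
  obtain ⟨es, hes⟩ := exists_forall₂ vs h2
  exact ⟨es, h0, h1, hes⟩

theorem mem_cases {vs : List ℕ} {v : ℕ} (h : v ∈ vs) :
    vs.head? = some v ∨ vs.getLast? = some v ∨ v ∈ inner vs := by
  cases vs with
  | nil => simp at h
  | cons a l =>
    rcases List.mem_cons.1 h with rfl | h
    · left; rfl
    · right
      have hl : l ≠ [] := List.ne_nil_of_mem h
      rw [← List.dropLast_append_getLast hl, List.mem_append] at h
      rcases h with h | h
      · right; simpa [inner] using h
      · left
        rw [List.mem_singleton] at h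
        rw [List.getLast?_cons_of_ne_nil hl, h, List.getLast?_eq_some_getLast hl]

theorem mem_of_mem_inner {vs : List ℕ} {v : ℕ} (h : v ∈ inner vs) : v ∈ vs :=
  List.mem_of_mem_tail (List.mem_of_mem_dropLast h)

/-- Both ends of an edge of a path are vertices of the path. -/
theorem ends_mem {E : List (ℕ × ℕ)} {vs es : List ℕ} (h : IsPath E vs es) {e : ℕ} (he : e ∈ es)
    {a b : ℕ} (hab : E[e]? = some (a, b)) : a ∈ vs ∧ b ∈ vs := by
  obtain ⟨i, hi, rfl⟩ := List.getElem_of_mem he
  have h1 := h.2.2.length_eq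
  have h2 := List.forall₂_iff_get.1 h.2.2
  have h3 := h2.2 i hi (h1 ▸ hi)
  simp only [List.get_eq_getElem] at h3
  have h4 : (vs.zip vs.tail)[i]'(h1 ▸ hi) ∈ vs.zip vs.tail := List.getElem_mem _
  generalize (vs.zip vs.tail)[i]'(h1 ▸ hi) = p at h3 h4
  obtain ⟨c, d⟩ := p
  have h5 := List.of_mem_zip h4
  have h6 : d ∈ vs := List.mem_of_mem_tail h5.2
  rcases h3 with h3 | h3
  · rw [hab] at h3
    simp only [Option.some.injEq, Prod.mk.injEq] at h3
    exact ⟨h3.1 ▸ h5.1, h3.2 ▸ h6⟩
  · rw [hab] at h3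
    simp only [Prod.swap, Option.some.injEq, Prod.mk.injEq] at h3
    exact ⟨h3.1 ▸ h6, h3.2 ▸ h5.1⟩

/-- Internally disjoint `(X, Y)`-paths, the first with at least three vertices, are different. -/
theorem edges_ne {E : List (ℕ × ℕ)} {X Y vs es vs' es' : List ℕ} (h : IsXYPath E X Y vs es)
    (h' : IsXYPath E X Y vs' es') (h3 : 3 ≤ vs.length) (hd : ∀ v ∈ inner vs, v ∉ inner vs') :
    es.toFinset ≠ es'.toFinset := by
  intro heq
  match vs, h, h3, hd with
  | a :: b :: c :: l, h, _, hd =>
    have hb : b ∈ inner (a :: b :: c :: l) := by simp [inner]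
    have h1 := h.1.2.2
    simp only [List.tail_cons, List.zip_cons_cons] at h1
    cases h1 with
    | @cons e _ es0 _ h1 _ =>
      have he : e ∈ es' := by
        rw [← List.mem_toFinset, ← heq]; simp
      have hb' : b ∈ vs' := by
        rcases h1 with h1 | h1
        · exact (ends_mem h'.1 he h1).2
        · exact (ends_mem h'.1 he h1).1
      have hbX := h.2.2.2 b hb
      rcases mem_cases hb' with h4 | h4 | h4
      · obtain ⟨x, hx, hx'⟩ := h'.2.1
        rw [h4] at hx'
        exact hbX.1 (Option.some.inj hx' ▸ hx)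
      · obtain ⟨y, hy, hy'⟩ := h'.2.2.1
        rw [h4] at hy'
        exact hbX.2 (Option.some.inj hy' ▸ hy)
      · exact hd b hb h4

/-- Parity of a chain in a properly two-coloured graph. -/
theorem colour_chain {r : ℕ → ℕ → Prop} {col : ℕ → Bool} (hc : ∀ u w, r u w → col u ≠ col w) :
    ∀ (l : List ℕ) (x y : ℕ), (x :: l).IsChain r → (x :: l).getLast? = some y →
      (col x ≠ col y ↔ Odd l.length)
  | [], x, y, _, h => by
    simp only [List.getLast?_singleton, Option.some.injEq] at h
    simp [h]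
  | b :: l, x, y, h1, h => by
    rw [List.isChain_cons_cons] at h1
    have h2 := colour_chain hc l b y h1.2 (by simpa [List.getLast?_cons_cons] using h)
    have h3 := hc _ _ h1.1
    rw [List.length_cons, Nat.odd_add_one, ← h2]
    revert h3
    cases col x <;> cases col b <;> cases col y <;> simp

theorem odd_iff_colour {E : List (ℕ × ℕ)} {col : ℕ → Bool}
    (hc : ∀ u w, Adj E u w → col u ≠ col w) {vs es : List ℕ} (h : IsPath E vs es) {x y : ℕ}
    (hx : vs.head? = some x) (hy : vs.getLast? = some y) : col x ≠ col y ↔ Odd es.length := by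
  cases vs with
  | nil => simp at hx
  | cons a l =>
    simp only [List.head?_cons, Option.some.injEq] at hx
    subst hx
    have h1 := h.length
    simp only [List.length_cons, Nat.add_right_cancel_iff] at h1
    rw [← h1]
    exact colour_chain hc l a y h.chain hy

/-- An invariant propagates along a chain. -/
theorem chain_inv {r : ℕ → ℕ → Prop} {Q M : ℕ → Prop} (hQ : ∀ u w, Q u → r u w → M w → Q w) :
    ∀ (l : List ℕ) (x : ℕ), (x :: l).IsChain r → Q x → (∀ w ∈ l, M w) → ∀ w ∈ x :: l, Q w
  | [], x, _, hx, _ => by simpa using hx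
  | b :: l, x, h1, hx, hM => by
    rw [List.isChain_cons_cons] at h1
    have h2 := chain_inv hQ l b h1.2 (hQ _ _ hx h1.1 (hM b (by simp)))
      (fun w hw => hM w (by simp [hw]))
    intro w hw
    rcases List.mem_cons.1 hw with rfl | hw
    · exact hx
    · exact h2 w hw

end Pool.Agent.H714Z.Odd
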