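import Pool.Agent.H714Z.Odd.Red

/-!
# Completeness of the reduction
-/

namespace Pool.Agent.H714Z.Odd

open Pool.Agent.NPC

/-- The long path through the first `n` variable gadgets. -/
def W (σ : ℕ → Bool) (m : ℕ) : ℕ → List ℕ
  | 0 => [vJ 0]
  | n + 1 => W σ m n ++ ((List.range (2 * m + 1)).map (vR (σ n) n) ++ [vJ (n + 1)])

theorem W_last (σ : ℕ → Bool) (m : ℕ) : ∀ n, (W σ m n).getLast? = some (vJ n)
  | 0 => rfl
  | n + 1 => by rw [W, ← List.append_assoc, List.getLast?_concat]

theorem W_head (σ : ℕ → Bool) (m : ℕ) : ∀ n, (W σ m n).head? = some (vJ 0)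
  | 0 => rfl
  | n + 1 => by rw [W, List.head?_append, W_head σ m n]; rfl

theorem W_mem (σ : ℕ → Bool) (m : ℕ) : ∀ n, ∀ u ∈ W σ m n,
    (∃ v ≤ n, u = vJ v) ∨ ∃ v < n, ∃ p, u = vR (σ v) v p
  | 0, u, h => Or.inl ⟨0, le_rfl, by simpa [W] using h⟩
  | n + 1, u, h => by
    rw [W, List.mem_append, List.mem_append, List.mem_map, List.mem_singleton] at h
    rcases h with h | ⟨p, _, rfl⟩ | rfl
    · rcases W_mem σ m n u h with ⟨v, h1, h2⟩ | ⟨v, h1, h2⟩
      · exact Or.inl ⟨v, by omega, h2⟩
      · exact Or.inr ⟨v, by omega, h2⟩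
    · exact Or.inr ⟨n, by omega, p, rfl⟩
    · exact Or.inl ⟨n + 1, le_rfl, rfl⟩

theorem J_ne_R (v : ℕ) (s : Bool) (v' p : ℕ) : vJ v ≠ vR s v' p := by
  cases s <;> simp [vJ, vR, cd_inj]

theorem W_nodup (σ : ℕ → Bool) (m : ℕ) : ∀ n, (W σ m n).Nodup
  | 0 => by simp [W]
  | n + 1 => by
    rw [W, List.nodup_append, List.nodup_append]
    refine ⟨W_nodup σ m n, ⟨List.nodup_range.map fun a b h => (vR_inj.1 h).2.2, by simp, ?_⟩, ?_⟩
    · intro a ha b hb
      obtain ⟨p, _, rfl⟩ := List.mem_map.1 ha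
      rw [List.mem_singleton.1 hb]
      exact (J_ne_R _ _ _ _).symm
    · intro a ha b hb
      rw [List.mem_append, List.mem_map, List.mem_singleton] at hb
      rcases W_mem σ m n a ha with ⟨v, h1, rfl⟩ | ⟨v, h1, p, rfl⟩
      · rcases hb with ⟨p, _, rfl⟩ | rfl
        · exact J_ne_R _ _ _ _
        · simp only [vJ, ne_eq, cd_inj, true_and, and_true]
          omega
      · rcases hb with ⟨p', _, rfl⟩ | rfl
        · intro h
          have := (vR_inj.1 h).2.1
          omega
        · exact (J_ne_R _ _ _ _).symm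

theorem W_chain (σ : ℕ → Bool) (φ : Fm) : ∀ n ≤ 3 * φ.length,
    (W σ φ.length n).IsChain (Adj (edges φ))
  | 0, _ => List.IsChain.singleton _
  | n + 1, h => by
    rw [W]
    refine (W_chain σ φ n (by omega)).append (List.IsChain.append ?_ (List.IsChain.singleton _) ?_) ?_
    · rw [List.isChain_map, List.isChain_range_succ]
      intro p hp
      exact adj_iff.2 (Or.inl (Ed.step _ n p (by omega) hp))
    · intro x hx y hy
      rw [List.range_succ, List.map_append, List.map_singleton, List.getLast?_concat] at hx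
      simp only [Option.mem_def, Option.some.injEq, List.head?_cons] at hx hy
      rw [← hx, ← hy]
      exact adj_iff.2 (Or.inl (Ed.leave _ n (by omega)))
    · intro x hx y hy
      rw [W_last] at hx
      rw [List.range_succ_eq_map] at hy
      simp only [Option.mem_def, Option.some.injEq, List.map_cons, List.cons_append,
        List.head?_cons] at hx hy
      rw [← hx, ← hy]
      exact adj_iff.2 (Or.inl (Ed.enter _ n (by omega)))

theorem inner_long {σ : ℕ → Bool} {m n u : ℕ} (h : u ∈ inner (x0 :: W σ m (n + 1))) :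
    (∃ v ≤ n, u = vJ v) ∨ ∃ v p, u = vR (σ v) v p := by
  rw [inner, List.tail_cons, W, ← List.append_assoc, List.dropLast_concat, List.mem_append,
    List.mem_map] at h
  rcases h with h | ⟨p, _, rfl⟩
  · rcases W_mem σ m n u h with h1 | ⟨v, _, p, h1⟩
    · exact Or.inl h1
    · exact Or.inr ⟨v, p, h1⟩
  · exact Or.inr ⟨n, p, rfl⟩

theorem complete {φ : Fm} (hb : Bounded3 φ) (hne : φ ≠ []) (h : SAT3 φ) : OddPaths (red φ) := by
  classical
  have hm := List.length_pos_iff.2 hne
  obtain ⟨τ, hτ⟩ := h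
  have hl : ∀ c < φ.length, ∃ l : Lit ℕ, InCl φ c l ∧ τ l.2 = l.1 := by
    intro c hc
    have h1 : φ[c]? = some φ[c] := by simp [hc]
    rcases hτ φ[c] (List.getElem_mem _) with h2 | h2 | h2
    · exact ⟨_, ⟨_, h1, Or.inl rfl⟩, h2⟩
    · exact ⟨_, ⟨_, h1, Or.inr (Or.inl rfl)⟩, h2⟩
    · exact ⟨_, ⟨_, h1, Or.inr (Or.inr rfl)⟩, h2⟩
  choose! L hL1 hL2 using hl
  obtain ⟨n, hn⟩ : ∃ n, 3 * φ.length = n + 1 := ⟨3 * φ.length - 1, by omega⟩
  set σ : ℕ → Bool := fun v => !(τ v) with hσ
  -- the long path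
  have hA : ∃ es, IsXYPath (edges φ) (setX φ) (setY φ) (x0 :: W σ φ.length (n + 1)) es ∧
      Odd es.length := by
    have hlast : (x0 :: W σ φ.length (n + 1)).getLast? = some (vJ (n + 1)) := by
      rw [List.getLast?_cons, W_last]; rfl
    obtain ⟨es, hes⟩ := exists_isPath (E := edges φ) (vs := x0 :: W σ φ.length (n + 1)) (by simp)
      (by
        rw [List.nodup_cons]
        refine ⟨fun h => ?_, W_nodup _ _ _⟩
        rcases W_mem _ _ _ _ h with ⟨v, _, h1⟩ | ⟨v, _, p, h1⟩
        · simp [x0, vJ, cd_inj] at h1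
        · exact R_notX _ _ _ (h1 ▸ mem_setX.2 (Or.inl rfl) : _ ∈ setX φ))
      (by
        refine List.IsChain.cons (W_chain σ φ _ (by omega)) ?_
        intro y hy
        rw [W_head] at hy
        rw [← Option.some.inj hy]
        exact adj_iff.2 (Or.inl Ed.start))
    refine ⟨es, ⟨hes, ⟨x0, mem_setX.2 (Or.inl rfl), rfl⟩,
      ⟨_, mem_setY.2 (Or.inl rfl), by rw [hlast, hn]⟩, ?_⟩, ?_⟩
    · intro u hu
      rcases inner_long hu with ⟨v, h1, rfl⟩ | ⟨v, p, rfl⟩
      · exact ⟨J_notX _, J_notY (by omega)⟩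
      · exact ⟨R_notX _ _ _, R_notY _ _ _⟩
    · exact (odd_iff_colour adj_col hes rfl hlast).1 (by simp)
  obtain ⟨esA, hA1, hA2⟩ := hA
  let cv : ℕ → List ℕ := fun c => [vS c, vA c, vR (L c).1 (L c).2 (2 * c + 1), vT c]
  have hinner : ∀ c, inner (cv c) = [vA c, vR (L c).1 (L c).2 (2 * c + 1)] := fun c => rfl
  have hAR : ∀ c s v p, vA c ≠ vR s v p := fun c s v p => by cases s <;> simp [vA, vR, cd_inj]
  have hC : ∀ c < φ.length, ∃ es, IsXYPath (edges φ) (setX φ) (setY φ) (cv c) es ∧
      Odd es.length := by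
    intro c hc
    obtain ⟨es, hes⟩ := exists_isPath (E := edges φ) (vs := cv c) (by simp [cv])
      (by
        simp only [cv]
        rcases L c with ⟨_ | _, v⟩ <;> simp [vS, vA, vR, vT, cd_inj])
      (by
        simp only [cv, List.isChain_cons_cons, List.isChain_singleton, and_true]
        exact ⟨adj_iff.2 (Or.inl (Ed.sa c hc)), adj_iff.2 (Or.inl (Ed.ar c _ (hL1 c hc))),
          adj_iff.2 (Or.inl (Ed.rt c _ (hL1 c hc)))⟩)
    refine ⟨es, ⟨hes, ⟨_, mem_setX.2 (Or.inr ⟨c, hc, rfl⟩), rfl⟩,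
      ⟨_, mem_setY.2 (Or.inr ⟨c, hc, rfl⟩), rfl⟩, ?_⟩, ?_⟩
    · intro u hu
      rw [hinner] at hu
      simp only [List.mem_cons, List.not_mem_nil, or_false] at hu
      rcases hu with rfl | rfl
      · exact ⟨A_notX _, A_notY _⟩
      · exact ⟨R_notX _ _ _, R_notY _ _ _⟩
    · have h1 := hes.length
      simp only [cv, List.length_cons, List.length_nil] at h1
      exact ⟨1, by omega⟩
  choose! ce hce1 hce2 using hC
  refine ⟨wf_red hb, (x0 :: W σ φ.length (n + 1), esA) ::
    (List.range φ.length).map (fun c => (cv c, ce c)), by simp [red], ?_, ?_⟩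
  · intro p hp
    rcases List.mem_cons.1 hp with rfl | hp
    · exact ⟨hA1, hA2⟩
    · obtain ⟨c, hc, rfl⟩ := List.mem_map.1 hp
      exact ⟨hce1 c (List.mem_range.1 hc), hce2 c (List.mem_range.1 hc)⟩
  · rw [List.pairwise_cons]
    constructor
    · intro q hq
      obtain ⟨c, hc, rfl⟩ := List.mem_map.1 hq
      rw [List.mem_range] at hc
      have hd : ∀ v ∈ inner (cv c), v ∉ inner (x0 :: W σ φ.length (n + 1)) := by
        intro u hu hu'
        rw [hinner] at hu
        simp only [List.mem_cons, List.not_mem_nil, or_false] at hu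
        rcases inner_long hu' with ⟨v, _, h2⟩ | ⟨v, p, h2⟩
        · rcases hu with rfl | rfl
          · simp [vA, vJ, cd_inj] at h2
          · exact J_ne_R _ _ _ _ h2.symm
        · rcases hu with rfl | rfl
          · exact hAR _ _ _ _ h2
          · obtain ⟨h3, h4, _⟩ := vR_inj.1 h2
            have h5 := hL2 c hc
            rw [h3, h4] at h5
            simp [hσ] at h5
      exact ⟨(edges_ne (hce1 c hc) hA1 (by simp [cv]) hd).symm, fun v hv hv' => hd v hv' hv⟩
    · rw [List.pairwise_map]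
      refine List.Pairwise.imp_of_mem ?_ (List.pairwise_lt_range (n := φ.length))
      intro c c' hc hc' hcc
      rw [List.mem_range] at hc hc'
      have hd : ∀ v ∈ inner (cv c), v ∉ inner (cv c') := by
        intro u hu hu'
        rw [hinner] at hu hu'
        simp only [List.mem_cons, List.not_mem_nil, or_false] at hu hu'
        rcases hu with rfl | rfl
        · rcases hu' with h2 | h2
          · simp only [vA, cd_inj, true_and, and_true] at h2
            omega
          · exact hAR _ _ _ _ h2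
        · rcases hu' with h2 | h2
          · exact hAR _ _ _ _ h2.symm
          · have := (vR_inj.1 h2).2.2
            omega
      exact ⟨edges_ne (hce1 c hc) (hce1 c' hc') (by simp [cv]) hd, hd⟩

end Pool.Agent.H714Z.Odd
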