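import Pool.Agent.NPC.Classes

/-!
# The decision problem ODD-PATHS
-/

namespace Pool.Agent.H714Z.Odd

/-- An instance `(V, E, k, X, Y)`: the list of vertices, the list of edges of a multigraph (each
edge is given by its two ends; loops and repeated entries, i.e. parallel edges, are allowed; an
edge is named by its position in the list), the number `k`, and the lists of elements of the two
vertex sets `X` and `Y`. -/
abbrev Inst : Type := List ℕ × List (ℕ × ℕ) × ℕ × List ℕ × List ℕ

/-- The instance is well formed: the ends of all edges are vertices, `k` is positive, and `X`, `Y`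
are `k`-element sets of vertices. -/
def WellFormed (V : List ℕ) (E : List (ℕ × ℕ)) (k : ℕ) (X Y : List ℕ) : Prop :=
  V.Nodup ∧ (∀ e ∈ E, e.1 ∈ V ∧ e.2 ∈ V) ∧ 0 < k ∧ X.Nodup ∧ Y.Nodup ∧
    X.length = k ∧ Y.length = k ∧ (∀ x ∈ X, x ∈ V) ∧ ∀ y ∈ Y, y ∈ V

/-- `vs = [v₀, …, vₙ]` (distinct vertices) and `es = [e₁, …, eₙ]` (names of edges) form a path:
the edge `eᵢ` has ends `vᵢ₋₁` and `vᵢ`.  Its length is `n = es.length`. -/
def IsPath (E : List (ℕ × ℕ)) (vs es : List ℕ) : Prop :=
  vs ≠ [] ∧ vs.Nodup ∧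
    List.Forall₂ (fun (e : ℕ) (p : ℕ × ℕ) => E[e]? = some p ∨ E[e]? = some p.swap) es
      (vs.zip vs.tail)

/-- The internal vertices of a path: all but the first and the last. -/
def inner (vs : List ℕ) : List ℕ := vs.tail.dropLast

/-- An `(X, Y)`-path: first vertex in `X`, last vertex in `Y`, no internal vertex in `X ∪ Y`. -/
def IsXYPath (E : List (ℕ × ℕ)) (X Y : List ℕ) (vs es : List ℕ) : Prop :=
  IsPath E vs es ∧ (∃ x ∈ X, vs.head? = some x) ∧ (∃ y ∈ Y, vs.getLast? = some y) ∧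
    ∀ v ∈ inner vs, v ∉ X ∧ v ∉ Y

/-- ODD-PATHS: the instance is well formed and there are `k` different (different edge sets),
pairwise internally disjoint `(X, Y)`-paths of odd length. -/
def OddPaths (I : Inst) : Prop :=
  WellFormed I.1 I.2.1 I.2.2.1 I.2.2.2.1 I.2.2.2.2 ∧
    ∃ P : List (List ℕ × List ℕ), P.length = I.2.2.1 ∧
      (∀ p ∈ P, IsXYPath I.2.1 I.2.2.2.1 I.2.2.2.2 p.1 p.2 ∧ Odd p.2.length) ∧
      P.Pairwise (fun p q => p.2.toFinset ≠ q.2.toFinset ∧ ∀ v ∈ inner p.1, v ∉ inner q.1)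

end Pool.Agent.H714Z.Odd
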