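import Pool.Agent.H714Z.Odd.Sound
import Pool.Agent.H714Z.Odd.Compl
import Pool.Agent.H671R2.PolyAuto
import Pool.Agent.H622R2.CoNP

/-!
# ODD-PATHS is NP-complete
-/

namespace Pool.Agent.H714Z.Odd

open Pool.Agent.NPC

section PolyRed

variable {α : Type} [TEnc α]

theorem poly_natPair {f g : α → ℕ} (hf : Poly f) (hg : Poly g) :
    Poly (fun a => Nat.pair (f a) (g a)) := by
  unfold Nat.pair
  fun_prop

@[fun_prop] theorem poly_cd {f g h : α → ℕ} (hf : Poly f) (hg : Poly g) (hh : Poly h) :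
    Poly (fun a => cd (f a) (g a) (h a)) := poly_natPair hf (poly_natPair hg hh)

@[fun_prop] theorem poly_vJ {f : α → ℕ} (hf : Poly f) : Poly (fun a => vJ (f a)) := by
  unfold vJ; fun_prop
@[fun_prop] theorem poly_vS {f : α → ℕ} (hf : Poly f) : Poly (fun a => vS (f a)) := by
  unfold vS; fun_prop
@[fun_prop] theorem poly_vA {f : α → ℕ} (hf : Poly f) : Poly (fun a => vA (f a)) := by
  unfold vA; fun_prop
@[fun_prop] theorem poly_vT {f : α → ℕ} (hf : Poly f) : Poly (fun a => vT (f a)) := by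
  unfold vT; fun_prop
@[fun_prop] theorem poly_vR {s : α → Bool} {f g : α → ℕ} (hs : Poly s) (hf : Poly f)
    (hg : Poly g) : Poly (fun a => vR (s a) (f a) (g a)) :=
  poly_cd (Poly.cond hs (NPC.Poly.const _) (NPC.Poly.const _)) hf hg

end PolyRed

theorem poly_red : Poly red := by
  have hm : UPoly (fun φ : Fm => φ.length) := UPoly.length Poly.id
  have h3 : Poly (fun φ : Fm => List.range (3 * φ.length)) := ((UPoly.const 3).mul hm).range
  have h2 : Poly (fun φ : Fm => List.range (2 * φ.length)) := ((UPoly.const 2).mul hm).range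
  have h1 : Poly (fun φ : Fm => List.range φ.length) := hm.range
  have hb : Poly (fun φ : Fm => List.range (bound φ.length)) := by
    have e1 : UPoly (fun φ : Fm => 3 * φ.length + 7) := ((UPoly.const 3).mul hm).add (UPoly.const 7)
    have e2 : UPoly (fun φ : Fm => (3 * φ.length + 7) * (3 * φ.length + 7) + 1) :=
      (e1.mul e1).add (UPoly.const 1)
    refine (e2.mul e2).range.congr fun φ => ?_
    simp only [bound, sq]
  have hX : Poly setX := by
    unfold setX
    exact Poly.cons (NPC.Poly.const _) (NPC.Poly.map (F := fun _ c => vS c) h1 (by fun_prop))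
  have hY : Poly setY := by
    unfold setY
    exact Poly.cons (by fun_prop) (NPC.Poly.map (F := fun _ c => vT c) h1 (by fun_prop))
  have hE : Poly edges := by
    unfold edges
    refine Poly.cons (NPC.Poly.const _) (Poly.append ?_ ?_)
    · refine Poly.flatMap (F := fun (φ : Fm) v => [false, true].flatMap (fun s =>
        (vJ v, vR s v 0) :: (vR s v (2 * φ.length), vJ (v + 1)) ::
          (List.range (2 * φ.length)).map (fun p => (vR s v p, vR s v (p + 1))))) h3 ?_
      refine Poly.flatMap (l := fun _ : Fm × ℕ => [false, true]) (F := fun (z : Fm × ℕ) s =>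
        (vJ z.2, vR s z.2 0) :: (vR s z.2 (2 * z.1.length), vJ (z.2 + 1)) ::
          (List.range (2 * z.1.length)).map (fun p => (vR s z.2 p, vR s z.2 (p + 1))))
        (NPC.Poly.const _) ?_
      refine Poly.cons (by fun_prop) (Poly.cons (by fun_prop) ?_)
      exact NPC.Poly.map (l := fun y : (Fm × ℕ) × Bool => List.range (2 * y.1.1.length))
        (F := fun (y : (Fm × ℕ) × Bool) p => (vR y.2 y.1.2 p, vR y.2 y.1.2 (p + 1)))
        (h2.comp (Poly.fst (Poly.fst Poly.id))) (by fun_prop)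
    · refine Poly.flatMap (F := fun (_ : Fm) (z : (Lit ℕ × Lit ℕ × Lit ℕ) × ℕ) =>
        (vS z.2, vA z.2) :: [z.1.1, z.1.2.1, z.1.2.2].flatMap (fun l =>
          [(vA z.2, vR l.1 l.2 (2 * z.2 + 1)), (vR l.1 l.2 (2 * z.2 + 1), vT z.2)]))
        (Poly.zipIdx Poly.id) ?_
      refine Poly.cons (by fun_prop) ?_
      exact Poly.flatMap
        (l := fun y : Fm × (Lit ℕ × Lit ℕ × Lit ℕ) × ℕ => [y.2.1.1, y.2.1.2.1, y.2.1.2.2])
        (F := fun (y : Fm × (Lit ℕ × Lit ℕ × Lit ℕ) × ℕ) (l : Lit ℕ) =>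
          [(vA y.2.2, vR l.1 l.2 (2 * y.2.2 + 1)), (vR l.1 l.2 (2 * y.2.2 + 1), vT y.2.2)])
        (by fun_prop) (by fun_prop)
  unfold red
  exact Poly.pair hb (Poly.pair hE (Poly.pair (by fun_prop) (Poly.pair hX hY)))

theorem npHard : NPHardP OddPaths :=
  (hardPr_SAT3b.trans (Pr' := fun _ => True) (Q := OddPaths) poly_red (fun _ _ => trivial)
    (fun _ h => ⟨complete h.2.1 h.2.2, sound h.2.1 h.2.2⟩)).toHardI.toNPHardP

/-! ### Membership in NP -/

/-- Test for a symmetric-free pairwise condition. -/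
def pwB {β : Type} (r : β → β → Bool) (l : List β) : Bool :=
  l.zipIdx.all (fun x => l.zipIdx.all (fun y => !(decide (x.2 < y.2)) || r x.1 y.1))

theorem pwB_iff {β : Type} (r : β → β → Bool) (l : List β) :
    pwB r l = true ↔ l.Pairwise (fun a b => r a b = true) := by
  rw [List.pairwise_iff_getElem]
  simp only [pwB, List.all_eq_true, Bool.or_eq_true, Bool.not_eq_true', decide_eq_false_iff_not]
  constructor
  · intro h i j hi hj hij
    have := h (l[i], i) (by rw [List.mem_zipIdx_iff_getElem?]; simp [hi]) (l[j], j)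
      (by rw [List.mem_zipIdx_iff_getElem?]; simp [hj])
    simpa [hij] using this
  · rintro h ⟨x, i⟩ hx ⟨y, j⟩ hy
    rw [List.mem_zipIdx_iff_getElem?] at hx hy
    simp only at hx hy ⊢
    obtain ⟨hi, rfl⟩ := List.getElem?_eq_some_iff.1 hx
    obtain ⟨hj, rfl⟩ := List.getElem?_eq_some_iff.1 hy
    by_cases hij : i < j
    · exact Or.inr (h i j hi hj hij)
    · exact Or.inl hij

theorem poly_pwB {α β : Type} [TEnc α] [TEnc β] {r : β → β → Bool} {l : α → List β}
    (hr : Poly (fun p : β × β => r p.1 p.2)) (hl : Poly l) : Poly (fun a => pwB r (l a)) := by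
  unfold pwB
  refine Poly.all (p := fun a (x : β × ℕ) =>
    (l a).zipIdx.all (fun y => !(decide (x.2 < y.2)) || r x.1 y.1)) (Poly.zipIdx hl) ?_
  refine Poly.all (l := fun z : α × β × ℕ => (l z.1).zipIdx)
    (p := fun (z : α × β × ℕ) (y : β × ℕ) => !(decide (z.2.2 < y.2)) || r z.2.1 y.1)
    (Poly.zipIdx (hl.comp (Poly.fst Poly.id))) ?_
  refine Poly.or (by fun_prop) ?_
  exact hr.comp (f := fun w : (α × β × ℕ) × β × ℕ => (w.1.2.1, w.2.1)) (by fun_prop)

/-- Test for `Nodup`. -/
def ndB (l : List ℕ) : Bool := pwB (fun a b => !(decide (a = b))) l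

theorem ndB_iff (l : List ℕ) : ndB l = true ↔ l.Nodup := by
  rw [ndB, pwB_iff, List.Nodup]
  simp

@[fun_prop] theorem poly_ndB {α : Type} [TEnc α] {l : α → List ℕ} (hl : Poly l) :
    Poly (fun a => ndB (l a)) := poly_pwB (by fun_prop) hl

/-- The internal vertices, computed. -/
def inB (l : List ℕ) : List ℕ := l.tail.reverse.tail.reverse

theorem inB_eq (l : List ℕ) : inB l = inner l := by
  simp [inB, inner]

@[fun_prop] theorem poly_inB {α : Type} [TEnc α] {l : α → List ℕ} (hl : Poly l) :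
    Poly (fun a => inB (l a)) := by
  unfold inB; fun_prop

def wfB (I : Inst) : Bool :=
  ndB I.1 && (I.2.1.all (fun e => decide (e.1 ∈ I.1) && decide (e.2 ∈ I.1)) &&
    (decide (0 < I.2.2.1) && (ndB I.2.2.2.1 && (ndB I.2.2.2.2 &&
      (decide (I.2.2.2.1.length = I.2.2.1) && (decide (I.2.2.2.2.length = I.2.2.1) &&
        (I.2.2.2.1.all (fun x => decide (x ∈ I.1)) && I.2.2.2.2.all (fun x => decide (x ∈ I.1)))))))))

theorem wfB_iff (I : Inst) :
    wfB I = true ↔ WellFormed I.1 I.2.1 I.2.2.1 I.2.2.2.1 I.2.2.2.2 := by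
  simp only [wfB, WellFormed, Bool.and_eq_true, ndB_iff, List.all_eq_true, decide_eq_true_eq]

theorem poly_wfB : Poly wfB := by
  unfold wfB
  fun_prop

def pathB (I : Inst) (p : List ℕ × List ℕ) : Bool :=
  ((!p.1.isEmpty && (ndB p.1 && (decide (p.2.length = (p.1.zip p.1.tail).length) &&
      (p.2.zip (p.1.zip p.1.tail)).all (fun z => decide (I.2.1[z.1]? = some z.2) ||
        decide (I.2.1[z.1]? = some (z.2.2, z.2.1)))))) &&
    (I.2.2.2.1.any (fun x => decide (p.1.head? = some x)) &&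
      (I.2.2.2.2.any (fun y => decide (p.1.reverse.head? = some y)) &&
        (inB p.1).all (fun v => !(decide (v ∈ I.2.2.2.1)) && !(decide (v ∈ I.2.2.2.2)))))) &&
    decide (p.2.length % 2 = 1)

theorem pathB_iff (I : Inst) (p : List ℕ × List ℕ) :
    pathB I p = true ↔ IsXYPath I.2.1 I.2.2.2.1 I.2.2.2.2 p.1 p.2 ∧ Odd p.2.length := by
  simp only [pathB, IsXYPath, IsPath, Bool.and_eq_true, ndB_iff, List.all_eq_true,
    List.any_eq_true, decide_eq_true_eq, inB_eq, List.head?_reverse, Nat.odd_iff,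
    List.forall₂_iff_zip, Bool.or_eq_true, Bool.not_eq_true', decide_eq_false_iff_not,
    List.isEmpty_eq_false_iff, ne_eq]
  refine and_congr (and_congr (and_congr Iff.rfl (and_congr Iff.rfl (and_congr Iff.rfl ?_)))
    Iff.rfl) Iff.rfl
  constructor
  · intro h a b hab
    exact h (a, b) hab
  · intro h z hz
    exact h hz

theorem poly_pathB : Poly (fun z : Inst × (List ℕ × List ℕ) => pathB z.1 z.2) := by
  unfold pathB
  fun_prop

def relB (p q : List ℕ × List ℕ) : Bool :=
  !(p.2.all (fun e => decide (e ∈ q.2)) && q.2.all (fun e => decide (e ∈ p.2))) &&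
    (inB p.1).all (fun v => !(decide (v ∈ inB q.1)))

theorem relB_iff (p q : List ℕ × List ℕ) :
    relB p q = true ↔ (p.2.toFinset ≠ q.2.toFinset ∧ ∀ v ∈ inner p.1, v ∉ inner q.1) := by
  simp only [relB, Bool.and_eq_true, Bool.not_eq_true', List.all_eq_true, inB_eq,
    decide_eq_false_iff_not]
  refine and_congr ?_ Iff.rfl
  rw [← Bool.not_eq_true, Bool.and_eq_true, List.all_eq_true, List.all_eq_true]
  simp only [decide_eq_true_eq, ne_eq, Finset.ext_iff, List.mem_toFinset]
  exact not_congr ⟨fun h e => ⟨h.1 e, h.2 e⟩, fun h => ⟨fun e => (h e).1, fun e => (h e).2⟩⟩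

theorem poly_relB : Poly (fun z : (List ℕ × List ℕ) × (List ℕ × List ℕ) => relB z.1 z.2) := by
  unfold relB
  fun_prop

def verB (z : Inst × List (List ℕ × List ℕ)) : Bool :=
  wfB z.1 && (decide (z.2.length = z.1.2.2.1) && (z.2.all (fun p => pathB z.1 p) && pwB relB z.2))

theorem poly_verB : Poly verB := by
  unfold verB
  refine Poly.and (poly_wfB.comp (Poly.fst Poly.id)) (Poly.and (by fun_prop) (Poly.and ?_ ?_))
  · exact Poly.all (p := fun (z : Inst × List (List ℕ × List ℕ)) p => pathB z.1 p)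
      (Poly.snd Poly.id) (poly_pathB.comp
        (f := fun w : (Inst × List (List ℕ × List ℕ)) × (List ℕ × List ℕ) => (w.1.1, w.2))
        (by fun_prop))
  · exact poly_pwB poly_relB (Poly.snd Poly.id)

theorem sz_path {V : List ℕ} {E : List (ℕ × ℕ)} {X vs es : List ℕ} {n : ℕ}
    (hE : ∀ e ∈ E, e.1 ∈ V ∧ e.2 ∈ V) (hX : ∀ x ∈ X, x ∈ V) (h : IsPath E vs es)
    (hx : ∃ x ∈ X, vs.head? = some x) (hV : sz V ≤ n) (hEn : sz E ≤ n) :
    sz (vs, es) ≤ 5 * n * n + 3 * n + 3 := by
  have h1 : ∀ v ∈ vs, v ∈ V := by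
    obtain ⟨x, hx, hx'⟩ := hx
    have h2 := h.chain
    cases vs with
    | nil => simp
    | cons a l =>
      simp only [List.head?_cons, Option.some.injEq] at hx'
      subst hx'
      refine chain_inv (Q := fun v => v ∈ V) (M := fun _ => True) ?_ l a h2 (hX a hx)
        (fun _ _ => trivial)
      intro u w _ huw _
      rcases huw with h3 | h3
      · exact (hE _ h3).2
      · exact (hE _ h3).1
  have h2 : vs.length ≤ n :=
    ((List.subperm_of_subset h.2.1 h1).length_le.trans (length_lt_sz V).le).trans hV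
  have h3 : sz vs ≤ vs.length * (n + 1) + 1 :=
    sz_le_length_mul vs n (fun v hv => (sz_le_of_mem (h1 v hv)).le.trans hV)
  have h4 : sz es ≤ es.length * (4 * n + 1 + 1) + 1 := by
    refine sz_le_length_mul es (4 * n + 1) (fun e he => ?_)
    obtain ⟨i, hi, rfl⟩ := List.getElem_of_mem he
    have h5 := (List.forall₂_iff_get.1 h.2.2).2 i hi (h.2.2.length_eq ▸ hi)
    simp only [List.get_eq_getElem] at h5
    have h6 : es[i] < E.length := by
      rcases h5 with h5 | h5 <;> exact (List.getElem?_eq_some_iff.1 h5).1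
    have h7 := sz_nat_le es[i]
    have h8 := Poly.size_le_self es[i]
    have h9 := length_lt_sz E
    omega
  have h5 := h.length
  rw [sz_pair]
  have h6 : vs.length * (n + 1) ≤ n * (n + 1) := Nat.mul_le_mul_right _ h2
  have h7 : es.length * (4 * n + 1 + 1) ≤ n * (4 * n + 1 + 1) :=
    Nat.mul_le_mul_right _ (by omega)
  nlinarith

theorem inNP : InNPP OddPaths := by
  refine inNPP_of poly_verB (Polynomial.X * (Polynomial.C 5 * Polynomial.X * Polynomial.X +
    Polynomial.C 3 * Polynomial.X + Polynomial.C 4) + Polynomial.C 1) (fun I => ?_)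
  have hv : ∀ P, verB (I, P) = true ↔ WellFormed I.1 I.2.1 I.2.2.1 I.2.2.2.1 I.2.2.2.2 ∧
      P.length = I.2.2.1 ∧
      (∀ p ∈ P, IsXYPath I.2.1 I.2.2.2.1 I.2.2.2.2 p.1 p.2 ∧ Odd p.2.length) ∧
      P.Pairwise (fun p q => p.2.toFinset ≠ q.2.toFinset ∧ ∀ v ∈ inner p.1, v ∉ inner q.1) := by
    intro P
    simp only [verB, Bool.and_eq_true, wfB_iff, decide_eq_true_eq, List.all_eq_true, pathB_iff,
      pwB_iff, relB_iff]
  constructor
  · rintro ⟨hwf, P, h1, h2, h3⟩
    refine ⟨P, ?_, (hv P).2 ⟨hwf, h1, h2, h3⟩⟩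
    obtain ⟨V, E, k, X, Y⟩ := I
    simp only at hwf h1 h2 h3
    set n := sz (V, E, k, X, Y) with hn
    simp only [sz_pair] at hn
    have h4 := sz_le_length_mul P (5 * n * n + 3 * n + 3) (fun p hp =>
      sz_path hwf.2.1 hwf.2.2.2.2.2.2.2.1 (h2 p hp).1.1 (h2 p hp).1.2.1 (by omega) (by omega))
    have h5 : P.length ≤ n := by
      have := length_lt_sz X
      have := hwf.2.2.2.2.2.1
      omega
    have h6 : P.length * (5 * n * n + 3 * n + 3 + 1) ≤ n * (5 * n * n + 3 * n + 3 + 1) :=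
      Nat.mul_le_mul_right _ h5
    simp only [Polynomial.eval_add, Polynomial.eval_mul, Polynomial.eval_C, Polynomial.eval_X]
    have h7 : 5 * n * n + 3 * n + 3 + 1 = 5 * n * n + 3 * n + 4 := by ring
    rw [h7] at h4 h6
    omega
  · rintro ⟨P, _, h⟩
    obtain ⟨h0, h1, h2, h3⟩ := (hv P).1 h
    exact ⟨h0, P, h1, h2, h3⟩

theorem inCoNP_iff : InCoNP (lang OddPaths) ↔ ∀ L : Set (List Bool), InNP L ↔ InCoNP L :=
  H622R2.inCoNP_iff_of_complete inNP npHard

end Pool.Agent.H714Z.Odd
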