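import Pool.Agent.H714Z.Odd.Basic
import Pool.Agent.NPC.Sat2

/-!
# The reduction from 3SAT
-/

namespace Pool.Agent.H714Z.Odd

open Pool.Agent.NPC

/-- Formulas. -/
abbrev Fm : Type := List (Lit ℕ × Lit ℕ × Lit ℕ)

/-- Names of vertices. -/
def cd (t i j : ℕ) : ℕ := Nat.pair t (Nat.pair i j)

theorem cd_inj {t i j t' i' j' : ℕ} : cd t i j = cd t' i' j' ↔ t = t' ∧ i = i' ∧ j = j' := by
  simp [cd, Nat.pair_eq_pair]

def x0 : ℕ := cd 0 0 0
def vJ (v : ℕ) : ℕ := cd 1 v 0
def vR (s : Bool) (v p : ℕ) : ℕ := cd (bif s then 6 else 2) v p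
def vS (c : ℕ) : ℕ := cd 3 c 0
def vA (c : ℕ) : ℕ := cd 4 c 0
def vT (c : ℕ) : ℕ := cd 5 c 0

theorem vR_inj {s s' : Bool} {v v' p p' : ℕ} :
    vR s v p = vR s' v' p' ↔ s = s' ∧ v = v' ∧ p = p' := by
  cases s <;> cases s' <;> simp [vR, cd_inj]

theorem tag_cases (s : Bool) : (bif s then 6 else 2) = 6 ∨ (bif s then 6 else 2) = 2 := by
  cases s <;> simp

/-- The edges. -/
def edges (φ : Fm) : List (ℕ × ℕ) :=
  (x0, vJ 0) :: ((List.range (3 * φ.length)).flatMap (fun v => [false, true].flatMap (fun s =>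
      (vJ v, vR s v 0) :: (vR s v (2 * φ.length), vJ (v + 1)) ::
        (List.range (2 * φ.length)).map (fun p => (vR s v p, vR s v (p + 1))))) ++
    φ.zipIdx.flatMap (fun z => (vS z.2, vA z.2) ::
      [z.1.1, z.1.2.1, z.1.2.2].flatMap (fun l =>
        [(vA z.2, vR l.1 l.2 (2 * z.2 + 1)), (vR l.1 l.2 (2 * z.2 + 1), vT z.2)])))

def setX (φ : Fm) : List ℕ := x0 :: (List.range φ.length).map vS
def setY (φ : Fm) : List ℕ := vJ (3 * φ.length) :: (List.range φ.length).map vT
def bound (m : ℕ) : ℕ := ((3 * m + 7) ^ 2 + 1) ^ 2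

/-- The instance attached to a formula. -/
def red (φ : Fm) : Inst :=
  (List.range (bound φ.length), edges φ, φ.length + 1, setX φ, setY φ)

/-- The literal `l` occurs in clause number `c`. -/
def InCl (φ : Fm) (c : ℕ) (l : Lit ℕ) : Prop :=
  ∃ cl, φ[c]? = some cl ∧ (l = cl.1 ∨ l = cl.2.1 ∨ l = cl.2.2)

theorem InCl.lt {φ : Fm} {c : ℕ} {l : Lit ℕ} (h : InCl φ c l) : c < φ.length := by
  obtain ⟨cl, h, _⟩ := h
  exact (List.getElem?_eq_some_iff.1 h).1

theorem InCl.var_lt {φ : Fm} (hb : Bounded3 φ) {c : ℕ} {l : Lit ℕ} (h : InCl φ c l) :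
    l.2 < 3 * φ.length := by
  obtain ⟨cl, h, h'⟩ := h
  have := hb cl (List.mem_of_getElem? h)
  rcases h' with rfl | rfl | rfl <;> tauto

/-- Description of the edges. -/
inductive Ed (φ : Fm) : ℕ → ℕ → Prop
  | start : Ed φ x0 (vJ 0)
  | enter (s : Bool) (v : ℕ) : v < 3 * φ.length → Ed φ (vJ v) (vR s v 0)
  | leave (s : Bool) (v : ℕ) : v < 3 * φ.length → Ed φ (vR s v (2 * φ.length)) (vJ (v + 1))
  | step (s : Bool) (v p : ℕ) : v < 3 * φ.length → p < 2 * φ.length →
      Ed φ (vR s v p) (vR s v (p + 1))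
  | sa (c : ℕ) : c < φ.length → Ed φ (vS c) (vA c)
  | ar (c : ℕ) (l : Lit ℕ) : InCl φ c l → Ed φ (vA c) (vR l.1 l.2 (2 * c + 1))
  | rt (c : ℕ) (l : Lit ℕ) : InCl φ c l → Ed φ (vR l.1 l.2 (2 * c + 1)) (vT c)

theorem mem_edges {φ : Fm} {u w : ℕ} : (u, w) ∈ edges φ ↔ Ed φ u w := by
  unfold edges
  constructor
  · intro h
    rcases List.mem_cons.1 h with h | h
    · simp only [Prod.mk.injEq] at h
      rw [h.1, h.2]; exact Ed.start
    rcases List.mem_append.1 h with h | h
    · rw [List.mem_flatMap] at h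
      obtain ⟨v, hv, h⟩ := h
      rw [List.mem_range] at hv
      rw [List.mem_flatMap] at h
      obtain ⟨s, _, h⟩ := h
      rcases List.mem_cons.1 h with h | h
      · simp only [Prod.mk.injEq] at h
        rw [h.1, h.2]; exact Ed.enter s v hv
      rcases List.mem_cons.1 h with h | h
      · simp only [Prod.mk.injEq] at h
        rw [h.1, h.2]; exact Ed.leave s v hv
      rw [List.mem_map] at h
      obtain ⟨p, hp, h⟩ := h
      rw [List.mem_range] at hp
      simp only [Prod.mk.injEq] at h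
      rw [← h.1, ← h.2]; exact Ed.step s v p hv hp
    · rw [List.mem_flatMap] at h
      obtain ⟨⟨cl, c⟩, hz, h⟩ := h
      rw [List.mem_zipIdx_iff_getElem?] at hz
      simp only at hz h
      rcases List.mem_cons.1 h with h | h
      · simp only [Prod.mk.injEq] at h
        rw [h.1, h.2]; exact Ed.sa c (List.getElem?_eq_some_iff.1 hz).1
      rw [List.mem_flatMap] at h
      obtain ⟨l, hl, h⟩ := h
      have hl' : InCl φ c l := ⟨cl, hz, by simpa using hl⟩
      rcases List.mem_cons.1 h with h | h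
      · simp only [Prod.mk.injEq] at h
        rw [h.1, h.2]; exact Ed.ar c l hl'
      · simp only [List.mem_singleton, Prod.mk.injEq] at h
        rw [h.1, h.2]; exact Ed.rt c l hl'
  · intro h
    have hs : ∀ s : Bool, s ∈ [false, true] := fun s => by cases s <;> simp
    cases h with
    | start => exact List.mem_cons_self
    | enter s v hv =>
      refine List.mem_cons_of_mem _ (List.mem_append_left _ ?_)
      exact List.mem_flatMap.2 ⟨v, List.mem_range.2 hv, List.mem_flatMap.2 ⟨s, hs s,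
        List.mem_cons_self⟩⟩
    | leave s v hv =>
      refine List.mem_cons_of_mem _ (List.mem_append_left _ ?_)
      exact List.mem_flatMap.2 ⟨v, List.mem_range.2 hv, List.mem_flatMap.2 ⟨s, hs s,
        List.mem_cons_of_mem _ List.mem_cons_self⟩⟩
    | step s v p hv hp =>
      refine List.mem_cons_of_mem _ (List.mem_append_left _ ?_)
      exact List.mem_flatMap.2 ⟨v, List.mem_range.2 hv, List.mem_flatMap.2 ⟨s, hs s,
        List.mem_cons_of_mem _ (List.mem_cons_of_mem _
          (List.mem_map.2 ⟨p, List.mem_range.2 hp, rfl⟩))⟩⟩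
    | sa c hc =>
      refine List.mem_cons_of_mem _ (List.mem_append_right _ ?_)
      refine List.mem_flatMap.2 ⟨(φ[c], c), ?_, List.mem_cons_self⟩
      rw [List.mem_zipIdx_iff_getElem?]; simp [hc]
    | ar c l hl =>
      obtain ⟨cl, h1, h2⟩ := hl
      refine List.mem_cons_of_mem _ (List.mem_append_right _ ?_)
      refine List.mem_flatMap.2 ⟨(cl, c), ?_, List.mem_cons_of_mem _
        (List.mem_flatMap.2 ⟨l, by simpa using h2, List.mem_cons_self⟩)⟩
      rw [List.mem_zipIdx_iff_getElem?]; simpa using h1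
    | rt c l hl =>
      obtain ⟨cl, h1, h2⟩ := hl
      refine List.mem_cons_of_mem _ (List.mem_append_right _ ?_)
      refine List.mem_flatMap.2 ⟨(cl, c), ?_, List.mem_cons_of_mem _
        (List.mem_flatMap.2 ⟨l, by simpa using h2, List.mem_cons_of_mem _ List.mem_cons_self⟩)⟩
      rw [List.mem_zipIdx_iff_getElem?]; simpa using h1

theorem adj_iff {φ : Fm} {u w : ℕ} : Adj (edges φ) u w ↔ Ed φ u w ∨ Ed φ w u := by
  rw [Adj, mem_edges, mem_edges]

theorem mem_setX {φ : Fm} {u : ℕ} : u ∈ setX φ ↔ u = x0 ∨ ∃ c < φ.length, u = vS c := by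
  simp only [setX, List.mem_cons, List.mem_map, List.mem_range]
  exact or_congr Iff.rfl ⟨fun ⟨c, h1, h2⟩ => ⟨c, h1, h2.symm⟩, fun ⟨c, h1, h2⟩ => ⟨c, h1, h2.symm⟩⟩

theorem mem_setY {φ : Fm} {u : ℕ} :
    u ∈ setY φ ↔ u = vJ (3 * φ.length) ∨ ∃ c < φ.length, u = vT c := by
  simp only [setY, List.mem_cons, List.mem_map, List.mem_range]
  exact or_congr Iff.rfl ⟨fun ⟨c, h1, h2⟩ => ⟨c, h1, h2.symm⟩, fun ⟨c, h1, h2⟩ => ⟨c, h1, h2.symm⟩⟩

/-- The two-colouring. -/
def col (n : ℕ) : Bool :=
  if (Nat.unpair n).1 = 1 ∨ (Nat.unpair n).1 = 3 then true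
  else if (Nat.unpair n).1 = 2 ∨ (Nat.unpair n).1 = 6 then
    decide ((Nat.unpair (Nat.unpair n).2).2 % 2 = 1) else false

@[simp] theorem col_x0 : col x0 = false := by simp [col, x0, cd]
@[simp] theorem col_J (v : ℕ) : col (vJ v) = true := by simp [col, vJ, cd]
@[simp] theorem col_S (v : ℕ) : col (vS v) = true := by simp [col, vS, cd]
@[simp] theorem col_A (v : ℕ) : col (vA v) = false := by simp [col, vA, cd]
@[simp] theorem col_T (v : ℕ) : col (vT v) = false := by simp [col, vT, cd]
@[simp] theorem col_R (s : Bool) (v p : ℕ) : col (vR s v p) = decide (p % 2 = 1) := by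
  cases s <;> simp [col, vR, cd]

theorem Ed.col_ne {φ : Fm} {u w : ℕ} (h : Ed φ u w) : col u ≠ col w := by
  cases h with
  | start => simp
  | enter s v hv => simp
  | leave s v hv => simp
  | step s v p hv hp =>
    simp only [col_R, ne_eq, decide_eq_decide]
    omega
  | sa c hc => simp
  | ar c l hl => simp
  | rt c l hl => simp

theorem adj_col {φ : Fm} (u w : ℕ) (h : Adj (edges φ) u w) : col u ≠ col w := by
  rcases adj_iff.1 h with h | h
  · exact h.col_ne
  · exact h.col_ne.symm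

theorem cd_lt {m t i j : ℕ} (ht : t ≤ 6) (hi : i ≤ 3 * m + 6) (hj : j ≤ 3 * m + 6) :
    cd t i j < bound m := by
  have h1 : Nat.pair i j < (3 * m + 7) ^ 2 :=
    (Nat.pair_lt_max_add_one_sq i j).trans_le (Nat.pow_le_pow_left (by omega) 2)
  have h2 : 7 ≤ (3 * m + 7) ^ 2 := by nlinarith
  exact (Nat.pair_lt_max_add_one_sq _ _).trans_le (Nat.pow_le_pow_left (by omega) 2)

theorem vR_lt {m v p : ℕ} (s : Bool) (hi : v ≤ 3 * m + 6) (hj : p ≤ 3 * m + 6) :
    vR s v p < bound m := cd_lt (by cases s <;> simp) hi hj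

theorem wf_red {φ : Fm} (hb : Bounded3 φ) :
    WellFormed (List.range (bound φ.length)) (edges φ) (φ.length + 1) (setX φ) (setY φ) := by
  refine ⟨List.nodup_range, ?_, by omega, ?_, ?_, by simp [setX], by simp [setY], ?_, ?_⟩
  · rintro ⟨u, w⟩ h
    rw [mem_edges] at h
    simp only [List.mem_range]
    cases h with
    | start => exact ⟨cd_lt (by omega) (by omega) (by omega), cd_lt (by omega) (by omega) (by omega)⟩
    | enter s v hv => exact ⟨cd_lt (by omega) (by omega) (by omega), vR_lt s (by omega) (by omega)⟩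
    | leave s v hv => exact ⟨vR_lt s (by omega) (by omega), cd_lt (by omega) (by omega) (by omega)⟩
    | step s v p hv hp => exact ⟨vR_lt s (by omega) (by omega), vR_lt s (by omega) (by omega)⟩
    | sa c hc =>
      exact ⟨cd_lt (by omega) (by omega) (by omega), cd_lt (by omega) (by omega) (by omega)⟩
    | ar c l hl =>
      have := hl.lt
      have := hl.var_lt hb
      exact ⟨cd_lt (by omega) (by omega) (by omega), vR_lt _ (by omega) (by omega)⟩
    | rt c l hl =>
      have := hl.lt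
      have := hl.var_lt hb
      exact ⟨vR_lt _ (by omega) (by omega), cd_lt (by omega) (by omega) (by omega)⟩
  · rw [setX, List.nodup_cons]
    refine ⟨by simp [x0, vS, cd_inj], List.nodup_range.map fun a b h => ?_⟩
    simpa [vS, cd_inj] using h
  · rw [setY, List.nodup_cons]
    refine ⟨by simp [vJ, vT, cd_inj], List.nodup_range.map fun a b h => ?_⟩
    simpa [vT, cd_inj] using h
  · intro x hx
    rw [List.mem_range]
    rcases mem_setX.1 hx with rfl | ⟨c, hc, rfl⟩
    · exact cd_lt (by omega) (by omega) (by omega)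
    · exact cd_lt (by omega) (by omega) (by omega)
  · intro x hx
    rw [List.mem_range]
    rcases mem_setY.1 hx with rfl | ⟨c, hc, rfl⟩
    · exact cd_lt (by omega) (by omega) (by omega)
    · exact cd_lt (by omega) (by omega) (by omega)

theorem adj_x0 {φ : Fm} {w : ℕ} (h : Adj (edges φ) x0 w) : w = vJ 0 := by
  rcases adj_iff.1 h with h | h
  · generalize hu : x0 = u at h
    cases h with
    | start => rfl
    | enter s v hv => simp [x0, vJ, cd_inj] at hu
    | leave s v hv => cases s <;> simp [x0, vR, cd_inj] at hu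
    | step s v p hv hp => cases s <;> simp [x0, vR, cd_inj] at hu
    | sa c hc => simp [x0, vS, cd_inj] at hu
    | ar c l hl => simp [x0, vA, cd_inj] at hu
    | rt c l hl => rcases l with ⟨_ | _, v⟩ <;> simp [x0, vR, cd_inj] at hu
  · generalize hu : x0 = u at h
    cases h with
    | start => simp [x0, vJ, cd_inj] at hu
    | enter s v hv => cases s <;> simp [x0, vR, cd_inj] at hu
    | leave s v hv => simp [x0, vJ, cd_inj] at hu
    | step s v p hv hp => cases s <;> simp [x0, vR, cd_inj] at hu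
    | sa c hc => simp [x0, vA, cd_inj] at hu
    | ar c l hl => rcases l with ⟨_ | _, v⟩ <;> simp [x0, vR, cd_inj] at hu
    | rt c l hl => simp [x0, vT, cd_inj] at hu

theorem adj_S {φ : Fm} {c w : ℕ} (h : Adj (edges φ) (vS c) w) : w = vA c := by
  rcases adj_iff.1 h with h | h
  · generalize hu : vS c = u at h
    cases h with
    | start => simp [vS, x0, cd_inj] at hu
    | enter s v hv => simp [vS, vJ, cd_inj] at hu
    | leave s v hv => cases s <;> simp [vS, vR, cd_inj] at hu
    | step s v p hv hp => cases s <;> simp [vS, vR, cd_inj] at hu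
    | sa c hc =>
      simp only [vS, cd_inj, true_and, and_true] at hu
      rw [hu]
    | ar c l hl => simp [vS, vA, cd_inj] at hu
    | rt c l hl => rcases l with ⟨_ | _, v⟩ <;> simp [vS, vR, cd_inj] at hu
  · generalize hu : vS c = u at h
    cases h with
    | start => simp [vS, vJ, cd_inj] at hu
    | enter s v hv => cases s <;> simp [vS, vR, cd_inj] at hu
    | leave s v hv => simp [vS, vJ, cd_inj] at hu
    | step s v p hv hp => cases s <;> simp [vS, vR, cd_inj] at hu
    | sa c hc => simp [vS, vA, cd_inj] at hu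
    | ar c l hl => rcases l with ⟨_ | _, v⟩ <;> simp [vS, vR, cd_inj] at hu
    | rt c l hl => simp [vS, vT, cd_inj] at hu

theorem adj_A {φ : Fm} {c w : ℕ} (h : Adj (edges φ) (vA c) w) :
    w = vS c ∨ ∃ l, InCl φ c l ∧ w = vR l.1 l.2 (2 * c + 1) := by
  rcases adj_iff.1 h with h | h
  · generalize hu : vA c = u at h
    cases h with
    | start => simp [vA, x0, cd_inj] at hu
    | enter s v hv => simp [vA, vJ, cd_inj] at hu
    | leave s v hv => cases s <;> simp [vA, vR, cd_inj] at hu
    | step s v p hv hp => cases s <;> simp [vA, vR, cd_inj] at hu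
    | sa c hc => simp [vS, vA, cd_inj] at hu
    | ar c l hl =>
      simp only [vA, cd_inj, true_and, and_true] at hu
      subst hu
      exact Or.inr ⟨l, hl, rfl⟩
    | rt c l hl => rcases l with ⟨_ | _, v⟩ <;> simp [vA, vR, cd_inj] at hu
  · generalize hu : vA c = u at h
    cases h with
    | start => simp [vA, vJ, cd_inj] at hu
    | enter s v hv => cases s <;> simp [vA, vR, cd_inj] at hu
    | leave s v hv => simp [vA, vJ, cd_inj] at hu
    | step s v p hv hp => cases s <;> simp [vA, vR, cd_inj] at hu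
    | sa c hc =>
      simp only [vA, cd_inj, true_and, and_true] at hu
      rw [hu]; exact Or.inl rfl
    | ar c l hl => rcases l with ⟨_ | _, v⟩ <;> simp [vA, vR, cd_inj] at hu
    | rt c l hl => simp [vA, vT, cd_inj] at hu

theorem adj_J {φ : Fm} {v w : ℕ} (h : Adj (edges φ) (vJ v) w) :
    w = x0 ∨ (∃ s, w = vR s v 0) ∨ ∃ s v', v = v' + 1 ∧ w = vR s v' (2 * φ.length) := by
  rcases adj_iff.1 h with h | h
  · generalize hu : vJ v = u at h
    cases h with
    | start => simp [vJ, x0, cd_inj] at hu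
    | enter s v hv =>
      simp only [vJ, cd_inj, true_and, and_true] at hu
      subst hu
      exact Or.inr (Or.inl ⟨s, rfl⟩)
    | leave s v hv => cases s <;> simp [vJ, vR, cd_inj] at hu
    | step s v p hv hp => cases s <;> simp [vJ, vR, cd_inj] at hu
    | sa c hc => simp [vS, vJ, cd_inj] at hu
    | ar c l hl => simp [vA, vJ, cd_inj] at hu
    | rt c l hl => rcases l with ⟨_ | _, v⟩ <;> simp [vJ, vR, cd_inj] at hu
  · generalize hu : vJ v = u at h
    cases h with
    | start => exact Or.inl rfl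
    | enter s v hv => cases s <;> simp [vJ, vR, cd_inj] at hu
    | leave s v hv =>
      simp only [vJ, cd_inj, true_and, and_true] at hu
      exact Or.inr (Or.inr ⟨s, v, hu, rfl⟩)
    | step s v p hv hp => cases s <;> simp [vJ, vR, cd_inj] at hu
    | sa c hc => simp [vA, vJ, cd_inj] at hu
    | ar c l hl => rcases l with ⟨_ | _, v⟩ <;> simp [vJ, vR, cd_inj] at hu
    | rt c l hl => simp [vJ, vT, cd_inj] at hu

theorem adj_R {φ : Fm} {s : Bool} {v p w : ℕ} (h : Adj (edges φ) (vR s v p) w) :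
    w = vJ v ∨ (p = 2 * φ.length ∧ w = vJ (v + 1)) ∨ w = vR s v (p + 1) ∨
      (∃ p', p = p' + 1 ∧ w = vR s v p') ∨ ∃ c < φ.length, w = vA c ∨ w = vT c := by
  rcases adj_iff.1 h with h | h
  · generalize hu : vR s v p = u at h
    cases h with
    | start => cases s <;> simp [vR, x0, cd_inj] at hu
    | enter s' v hv => cases s <;> simp [vR, vJ, cd_inj] at hu
    | leave s' v hv =>
      rw [vR_inj] at hu
      obtain ⟨rfl, rfl, rfl⟩ := hu
      exact Or.inr (Or.inl ⟨rfl, rfl⟩)
    | step s' v p hv hp =>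
      rw [vR_inj] at hu
      obtain ⟨rfl, rfl, rfl⟩ := hu
      exact Or.inr (Or.inr (Or.inl rfl))
    | sa c hc => cases s <;> simp [vS, vR, cd_inj] at hu
    | ar c l hl => cases s <;> simp [vA, vR, cd_inj] at hu
    | rt c l hl => exact Or.inr (Or.inr (Or.inr (Or.inr ⟨c, hl.lt, Or.inr rfl⟩)))
  · generalize hu : vR s v p = u at h
    cases h with
    | start => cases s <;> simp [vR, vJ, cd_inj] at hu
    | enter s' v hv =>
      rw [vR_inj] at hu
      obtain ⟨rfl, rfl, rfl⟩ := hu
      exact Or.inl rfl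
    | leave s' v hv => cases s <;> simp [vR, vJ, cd_inj] at hu
    | step s' v p hv hp =>
      rw [vR_inj] at hu
      obtain ⟨rfl, rfl, rfl⟩ := hu
      exact Or.inr (Or.inr (Or.inr (Or.inl ⟨p, rfl, rfl⟩)))
    | sa c hc => cases s <;> simp [vA, vR, cd_inj] at hu
    | ar c l hl => exact Or.inr (Or.inr (Or.inr (Or.inr ⟨c, hl.lt, Or.inl rfl⟩)))
    | rt c l hl => cases s <;> simp [vT, vR, cd_inj] at hu

theorem J_notX {φ : Fm} (v : ℕ) : vJ v ∉ setX φ := by
  simp [mem_setX, vJ, x0, vS, cd_inj]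
theorem A_notX {φ : Fm} (v : ℕ) : vA v ∉ setX φ := by
  simp [mem_setX, vA, x0, vS, cd_inj]
theorem R_notX {φ : Fm} (s : Bool) (v p : ℕ) : vR s v p ∉ setX φ := by
  cases s <;> simp [mem_setX, vR, x0, vS, cd_inj]
theorem J_notY {φ : Fm} {v : ℕ} (hv : v ≠ 3 * φ.length) : vJ v ∉ setY φ := by
  simp [mem_setY, vJ, vT, cd_inj, hv]
theorem A_notY {φ : Fm} (v : ℕ) : vA v ∉ setY φ := by
  simp [mem_setY, vA, vJ, vT, cd_inj]
theorem R_notY {φ : Fm} (s : Bool) (v p : ℕ) : vR s v p ∉ setY φ := by
  cases s <;> simp [mem_setY, vR, vJ, vT, cd_inj]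

end Pool.Agent.H714Z.Odd
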