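import Pool.Agent.H714Z.Odd.Red

/-!
# Soundness of the reduction
-/

namespace Pool.Agent.H714Z.Odd

open Pool.Agent.NPC

theorem second {φ : Fm} {vs es : List ℕ}
    (h : IsXYPath (edges φ) (setX φ) (setY φ) vs es) (ho : Odd es.length) {x w : ℕ}
    (hx : vs.head? = some x) (hw : ∀ w', Adj (edges φ) x w' → w' = w) (hY : w ∉ setY φ) :
    ∃ u rest, vs = x :: w :: u :: rest := by
  have h1 := h.1.length
  have h2 := h.1.chain
  have h3 : 1 ≤ es.length := ho.pos
  match vs, h, hx, h1, h2 with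
  | [], _, hx, _, _ => simp at hx
  | [_], _, _, h1, _ => simp only [List.length_singleton] at h1; omega
  | [a, b], h, hx, _, h2 =>
    simp only [List.head?_cons, Option.some.injEq] at hx
    subst hx
    rw [List.isChain_cons_cons] at h2
    obtain ⟨y, hy, hy'⟩ := h.2.2.1
    simp only [List.getLast?_cons_cons, List.getLast?_singleton, Option.some.injEq] at hy'
    rw [← hy', hw _ h2.1] at hy
    exact absurd hy hY
  | a :: b :: u :: rest, _, hx, _, h2 =>
    simp only [List.head?_cons, Option.some.injEq] at hx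
    subst hx
    rw [List.isChain_cons_cons] at h2
    exact ⟨u, rest, by rw [hw _ h2.1]⟩

theorem exists_nb {φ : Fm} (hne : φ ≠ []) {x : ℕ} (hx : x ∈ setX φ) :
    ∃ w, (∀ w', Adj (edges φ) x w' → w' = w) ∧ w ∉ setY φ := by
  have hm := List.length_pos_iff.2 hne
  rcases mem_setX.1 hx with rfl | ⟨c, _, rfl⟩
  · exact ⟨vJ 0, fun _ h => adj_x0 h, J_notY (by omega)⟩
  · exact ⟨vA c, fun _ h => adj_S h, A_notY c⟩

theorem cut {φ : Fm} {l : List ℕ} (h : (x0 :: l).IsChain (Adj (edges φ)))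
    (hJ : vJ (3 * φ.length) ∈ x0 :: l) (hA : ∀ c < φ.length, vA c ∉ x0 :: l)
    (hT : ∀ c < φ.length, vT c ∉ x0 :: l) {v : ℕ} (hv : v < 3 * φ.length) :
    ∃ s, ∀ p ≤ 2 * φ.length, vR s v p ∈ x0 :: l := by
  by_contra hcon
  push Not at hcon
  choose b hb1 hb2 using hcon
  have key := chain_inv (r := Adj (edges φ))
    (Q := fun u => u = x0 ∨ (∃ v' ≤ v, u = vJ v') ∨ (∃ s v' p, v' < v ∧ u = vR s v' p) ∨
      ∃ s p, p < b s ∧ u = vR s v p) (M := fun u => u ∈ x0 :: l) ?_ l x0 h (Or.inl rfl)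
    (fun w hw => List.mem_cons_of_mem _ hw) _ hJ
  · rcases key with h1 | ⟨v', h1, h2⟩ | ⟨s, v', p, _, h2⟩ | ⟨s, p, _, h2⟩
    · simp [vJ, x0, cd_inj] at h1
    · simp only [vJ, cd_inj, true_and, and_true] at h2
      omega
    · cases s <;> simp [vJ, vR, cd_inj] at h2
    · cases s <;> simp [vJ, vR, cd_inj] at h2
  · have hlt : ∀ s p, p ≤ b s → vR s v p ∈ x0 :: l → p < b s := by
      intro s p hp hw
      rcases Nat.lt_or_eq_of_le hp with h1 | h1
      · exact h1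
      · rw [h1] at hw
        exact absurd hw (hb2 s)
    intro u w hu huw hw
    rcases hu with rfl | ⟨v', h1, rfl⟩ | ⟨s, v', p, h1, rfl⟩ | ⟨s, p, h1, rfl⟩
    · exact Or.inr (Or.inl ⟨0, Nat.zero_le _, adj_x0 huw⟩)
    · rcases adj_J huw with rfl | ⟨s, rfl⟩ | ⟨s, v'', h2, rfl⟩
      · exact Or.inl rfl
      · rcases Nat.lt_or_eq_of_le h1 with h2 | rfl
        · exact Or.inr (Or.inr (Or.inl ⟨s, v', 0, h2, rfl⟩))
        · exact Or.inr (Or.inr (Or.inr ⟨s, 0, hlt s 0 (Nat.zero_le _) hw, rfl⟩))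
      · exact Or.inr (Or.inr (Or.inl ⟨s, v'', _, by omega, rfl⟩))
    · rcases adj_R huw with rfl | ⟨_, rfl⟩ | rfl | ⟨p', _, rfl⟩ | ⟨c, hc, rfl | rfl⟩
      · exact Or.inr (Or.inl ⟨v', h1.le, rfl⟩)
      · exact Or.inr (Or.inl ⟨v' + 1, h1, rfl⟩)
      · exact Or.inr (Or.inr (Or.inl ⟨s, v', _, h1, rfl⟩))
      · exact Or.inr (Or.inr (Or.inl ⟨s, v', _, h1, rfl⟩))
      · exact absurd hw (hA c hc)
      · exact absurd hw (hT c hc)
    · rcases adj_R huw with rfl | ⟨h2, rfl⟩ | rfl | ⟨p', h2, rfl⟩ | ⟨c, hc, rfl | rfl⟩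
      · exact Or.inr (Or.inl ⟨v, le_rfl, rfl⟩)
      · have := hb1 s
        omega
      · exact Or.inr (Or.inr (Or.inr ⟨s, p + 1, hlt s _ h1 hw, rfl⟩))
      · exact Or.inr (Or.inr (Or.inr ⟨s, p', by omega, rfl⟩))
      · exact absurd hw (hA c hc)
      · exact absurd hw (hT c hc)

theorem sound {φ : Fm} (hb : Bounded3 φ) (hne : φ ≠ []) (h : OddPaths (red φ)) : SAT3 φ := by
  classical
  obtain ⟨hwf, P, hlen, hP, hpw⟩ := h
  simp only [red] at hwf hlen hP hpw
  have hm := List.length_pos_iff.2 hne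
  -- disjointness for different paths
  have hpw' : P.Pairwise (fun p q => ∀ v ∈ inner p.1, v ∉ inner q.1) := hpw.imp fun h => h.2
  have hsymm : Std.Symm (fun p q : List ℕ × List ℕ => ∀ v ∈ inner p.1, v ∉ inner q.1) :=
    ⟨fun p q h v hv hv' => h v hv' hv⟩
  have hdis : ∀ p ∈ P, ∀ q ∈ P, p ≠ q → ∀ v ∈ inner p.1, v ∉ inner q.1 :=
    fun p hp q hq hpq => List.Pairwise.forall hpw' hp hq hpq
  -- every element of `X` starts a path
  have hsurj : ∀ x ∈ setX φ, ∃ p ∈ P, p.1.head? = some x := by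
    have h1 : (P.map (fun p => p.1.head?.getD 0)).Nodup := by
      rw [List.Nodup, List.pairwise_map]
      refine List.Pairwise.imp_of_mem ?_ hpw'
      intro p q hp hq hpq heq
      obtain ⟨x, hx, hx'⟩ := (hP p hp).1.2.1
      obtain ⟨y, hy, hy'⟩ := (hP q hq).1.2.1
      rw [hx', hy'] at heq
      simp only [Option.getD_some] at heq
      subst heq
      obtain ⟨w, hw, hwY⟩ := exists_nb hne hx
      obtain ⟨u, rest, e1⟩ := second (hP p hp).1 (hP p hp).2 hx' hw hwY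
      obtain ⟨u', rest', e2⟩ := second (hP q hq).1 (hP q hq).2 hy' hw hwY
      exact hpq w (by simp [e1, inner]) (by simp [e2, inner])
    have h2 : P.map (fun p => p.1.head?.getD 0) ⊆ setX φ := by
      intro x hx
      obtain ⟨p, hp, rfl⟩ := List.mem_map.1 hx
      obtain ⟨x, hx, hx'⟩ := (hP p hp).1.2.1
      rw [hx']; exact hx
    have h3 := (List.subperm_of_subset h1 h2).perm_of_length_le
      (by rw [List.length_map, hlen]; simp [setX])
    intro x hx
    obtain ⟨p, hp, hpx⟩ := List.mem_map.1 (h3.symm.subset hx)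
    obtain ⟨y, _, hy'⟩ := (hP p hp).1.2.1
    rw [hy'] at hpx
    simp only [Option.getD_some] at hpx
    exact ⟨p, hp, hpx ▸ hy'⟩
  obtain ⟨p0, hp0, hx0⟩ := hsurj x0 (mem_setX.2 (Or.inl rfl))
  obtain ⟨hXY0, ho0⟩ := hP p0 hp0
  have hlast : p0.1.getLast? = some (vJ (3 * φ.length)) := by
    obtain ⟨y, hy, hy'⟩ := hXY0.2.2.1
    have h1 := (odd_iff_colour adj_col hXY0.1 hx0 hy').2 ho0
    rcases mem_setY.1 hy with rfl | ⟨c, _, rfl⟩
    · exact hy'
    · simp at h1
  have hmem : ∀ u ∈ p0.1, u = x0 ∨ u = vJ (3 * φ.length) ∨ u ∈ inner p0.1 := by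
    intro u hu
    rcases mem_cases hu with h1 | h1 | h1
    · rw [hx0] at h1; exact Or.inl (Option.some.inj h1).symm
    · rw [hlast] at h1; exact Or.inr (Or.inl (Option.some.inj h1).symm)
    · exact Or.inr (Or.inr h1)
  -- the clause paths
  have hcl : ∀ c < φ.length, ∃ l, InCl φ c l ∧ vA c ∉ inner p0.1 ∧
      vR l.1 l.2 (2 * c + 1) ∉ inner p0.1 := by
    intro c hc
    obtain ⟨q, hq, hqx⟩ := hsurj (vS c) (mem_setX.2 (Or.inr ⟨c, hc, rfl⟩))
    have hne' : q ≠ p0 := by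
      rintro rfl
      rw [hx0] at hqx
      simp [x0, vS, cd_inj] at hqx
    obtain ⟨hXY, ho⟩ := hP q hq
    obtain ⟨u, rest, e⟩ := second hXY ho hqx (fun _ h => adj_S h) (A_notY c)
    have h1 := hXY.1.chain
    have h2 := hXY.1.2.1
    rw [e] at h1 h2
    rw [List.isChain_cons_cons, List.isChain_cons_cons] at h1
    rcases adj_A h1.2.1 with rfl | ⟨l, hl, rfl⟩
    · simp at h2
    · refine ⟨l, hl, hdis q hq p0 hp0 hne' _ (by simp [e, inner]), hdis q hq p0 hp0 hne' _ ?_⟩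
      cases rest with
      | nil =>
        obtain ⟨y, hy, hy'⟩ := hXY.2.2.1
        rw [e] at hy'
        simp only [List.getLast?_cons_cons, List.getLast?_singleton, Option.some.injEq] at hy'
        exact absurd (hy' ▸ hy) (R_notY _ _ _)
      | cons u' rest => simp [e, inner]
  have hA : ∀ c < φ.length, vA c ∉ p0.1 := by
    intro c hc hu
    obtain ⟨l, _, h1, _⟩ := hcl c hc
    rcases hmem _ hu with h2 | h2 | h2
    · simp [x0, vA, cd_inj] at h2
    · simp [vJ, vA, cd_inj] at h2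
    · exact h1 h2
  have hT : ∀ c < φ.length, vT c ∉ p0.1 := by
    intro c hc hu
    rcases hmem _ hu with h2 | h2 | h2
    · simp [x0, vT, cd_inj] at h2
    · simp [vJ, vT, cd_inj] at h2
    · exact (hXY0.2.2.2 _ h2).2 (mem_setY.2 (Or.inr ⟨c, hc, rfl⟩))
  have hroute : ∀ v < 3 * φ.length, ∃ s, ∀ p ≤ 2 * φ.length, vR s v p ∈ p0.1 := by
    intro v hv
    have h1 := hXY0.1.chain
    have h2 : vJ (3 * φ.length) ∈ p0.1 := List.mem_of_getLast? hlast
    cases e : p0.1 with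
    | nil => rw [e] at hx0; simp at hx0
    | cons a l =>
      rw [e] at hx0 h1 h2 hA hT
      simp only [List.head?_cons, Option.some.injEq] at hx0
      subst hx0
      exact cut h1 h2 hA hT hv
  choose! σ hσ using hroute
  refine ⟨fun v => !(σ v), fun cl hcl' => ?_⟩
  obtain ⟨c, hc⟩ := List.getElem?_of_mem hcl'
  have hc' := (List.getElem?_eq_some_iff.1 hc).1
  obtain ⟨l, hl, _, h2⟩ := hcl c hc'
  have h3 : (!(σ l.2)) = l.1 := by
    by_contra h4
    have h5 : l.1 = σ l.2 := by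
      revert h4
      cases σ l.2 <;> cases l.1 <;> simp
    have h6 := hσ l.2 (hl.var_lt hb) (2 * c + 1) (by omega)
    rw [← h5] at h6
    rcases hmem _ h6 with h7 | h7 | h7
    · exact R_notX _ _ _ (h7 ▸ mem_setX.2 (Or.inl rfl) : _ ∈ setX φ)
    · exact R_notY _ _ _ (h7 ▸ mem_setY.2 (Or.inl rfl) : _ ∈ setY φ)
    · exact h2 h7
  obtain ⟨cl', h7, h8⟩ := hl
  rw [hc] at h7
  obtain rfl := Option.some.inj h7
  rcases h8 with rfl | rfl | rfl
  · exact Or.inl h3
  · exact Or.inr (Or.inl h3)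
  · exact Or.inr (Or.inr h3)

end Pool.Agent.H714Z.Odd
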